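import Mathlib
import Pool.Agent.Helper41.SD.FamSpec

/-!
# Pairings of corresponding classes on products
-/

universe u v w u' w'

open CategoryTheory Finset

namespace Pool.Agent.Helper29.GD

open Pool.Agent.Helper10 hiding IsAlgAut parityPart
open SmProjVar Pool.Agent.Helper10.GIT
open Pool.Agent.Helper11 Pool.Agent.Helper11.BD
open Pool.Agent.Helper11.Obs (extProd wordClass prodVar prodFst prodProj)

variable {k : Type u} [Field k] {K : Type v} [Field K] [CharZero K]
  {k' : Type u'} [Field k']

/-- all classes of the family are even or odd -/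
def Pure (W : WeilCohomology.{u, v, w} k K) {b : ℕ} {V : Fin b → SmProjVar k}
    (x : ∀ i, W.H (V i)) : Prop := ∀ i, ∃ q, x i ∈ par W q (V i)

/-- the external products of even and odd classes span the cohomology of a product -/
lemma span_pure (W : WeilCohomology.{u, v, w} k K) {b : ℕ} (V : Fin b → SmProjVar k) :
    Submodule.span K {z | ∃ v : ∀ i, W.H (V i), Pure W v ∧
      z = (extProd W.toCohomologyData (A := pt k) 1 v : W.H (prodVar (pt k) V))} = ⊤ := by
  induction b with
  | zero =>
    rw [eq_top_iff, ← span_extProd' W V]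
    refine Submodule.span_mono ?_
    rintro _ ⟨v, rfl⟩
    exact ⟨v, fun i => i.elim0, rfl⟩
  | succ b ih =>
    rw [eq_top_iff]
    rintro z -
    let A : SmProjVar k := prodVar (pt k) fun i : Fin b => V i.castSucc
    let B : SmProjVar k := V (Fin.last b)
    let m : TensorProduct K (W.H A) (W.H B) →ₗ[K] W.H (A.prod B) :=
      LinearMap.mul' K _ ∘ₗ
        TensorProduct.map (W.pullA (fst A B)).toLinearMap (W.pullA (snd A B)).toLinearMap
    have hm : ∀ a b', m (TensorProduct.tmul K a b') =
        W.pull (fst A B) a * W.pull (snd A B) b' := fun a b' => rfl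
    obtain ⟨s, rfl⟩ := (W.kunneth A B m hm).2 z
    induction s using TensorProduct.induction_on with
    | zero => rw [map_zero]; exact Submodule.zero_mem _
    | tmul a y =>
      have ha : a ∈ Submodule.span K {z | ∃ v : ∀ i : Fin b, W.H (V i.castSucc), Pure W v ∧
        z = (extProd W.toCohomologyData (A := pt k) 1 v : W.H A)} := by
          rw [ih fun i => V i.castSucc]; trivial
      induction ha using Submodule.span_induction with
      | mem a ha =>
        obtain ⟨v, hv, rfl⟩ := ha
        refine par_induction W (P := fun y => m (TensorProduct.tmul K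
          (extProd W.toCohomologyData (A := pt k) 1 v : W.H A) y) ∈ Submodule.span K
            {z | ∃ v : ∀ i, W.H (V i), Pure W v ∧
              z = (extProd W.toCohomologyData (A := pt k) 1 v : W.H (prodVar (pt k) V))})
          (fun q y hy => ?_) (fun y y' h h' => ?_) y
        · refine Submodule.subset_span ⟨Fin.snoc (α := fun i => W.H (V i)) v y, ?_, ?_⟩
          · intro i
            refine Fin.lastCases ?_ (fun i => ?_) i
            · rw [Fin.snoc_last]
              exact ⟨q, hy⟩
            · rw [Fin.snoc_castSucc]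
              exact hv i
          · rw [Can.extProd_succ, hm, Fin.snoc_last]
            congr 3
            funext i
            rw [Fin.snoc_castSucc]
        · rw [TensorProduct.tmul_add, map_add]
          exact Submodule.add_mem _ h h'
      | zero => rw [TensorProduct.zero_tmul, map_zero]; exact Submodule.zero_mem _
      | add a a' _ _ ha ha' =>
        rw [TensorProduct.add_tmul, map_add]; exact Submodule.add_mem _ ha ha'
      | smul c a _ ha => rw [← TensorProduct.smul_tmul', map_smul]; exact Submodule.smul_mem _ _ ha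
    | add x y hx hy => rw [map_add]; exact Submodule.add_mem _ hx hy

/-- a multiplicative linear isomorphism which preserves parity and trace -/
structure IsGood (W : WeilCohomology.{u, v, w} k K) (W' : WeilCohomology.{u', v, w'} k' K)
    {X : SmProjVar k} {X' : SmProjVar k'} (f : W.H X → W'.H X') : Prop where
  bijective : Function.Bijective f
  map_mul : ∀ x y, f (x * y) = f x * f y
  map_add : ∀ x y, f (x + y) = f x + f y
  par : ∀ q x, x ∈ par W q X → f x ∈ par W' q X'
  tr : ∀ x, W'.trL X' (f x) = W.trL X x

section

variable {W : WeilCohomology.{u, v, w} k K} {W' : WeilCohomology.{u', v, w'} k' K}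

lemma disjoint_par (W : WeilCohomology.{u, v, w} k K) {X : SmProjVar k} {q : Bool} {x : W.H X}
    (h : x ∈ BD.par W q X) (h' : x ∈ BD.par W (!q) X) : x = 0 := by
  have hd := (W.isCompl X).disjoint
  cases q with
  | false => exact (Submodule.disjoint_def.1 hd) x h h'
  | true => exact (Submodule.disjoint_def.1 hd) x h' h

lemma IsGood.par_symm {X : SmProjVar k} {X' : SmProjVar k'} {f : W.H X → W'.H X'}
    (hf : IsGood W W' f) {q : Bool} {x : W.H X} (h : f x ∈ BD.par W' q X') :
    x ∈ BD.par W q X := by
  obtain ⟨a, ha, b, hb, rfl⟩ := exists_parity W X x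
  rw [hf.map_add] at h
  have hf0 : f 0 = 0 := by
    have := hf.map_add 0 0
    rw [add_zero] at this
    exact left_eq_add.1 this
  cases q with
  | false =>
    have h1 : f b ∈ BD.par W' false X' := by
      have h2 := Submodule.sub_mem _ h (hf.par false a ha)
      rwa [add_sub_cancel_left] at h2
    have h2 : f b = 0 := disjoint_par W' h1 (hf.par true b hb)
    have h3 : b = 0 := hf.bijective.1 (h2.trans hf0.symm)
    rw [h3, add_zero]
    exact ha
  | true =>
    have h1 : f a ∈ BD.par W' true X' := by
      have h2 := Submodule.sub_mem _ h (hf.par true b hb)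
      rwa [add_sub_cancel_right] at h2
    have h2 : f a = 0 := disjoint_par W' h1 (hf.par false a ha)
    have h3 : a = 0 := hf.bijective.1 (h2.trans hf0.symm)
    rw [h3, zero_add]
    exact hb

/-- the trace of the product of two external products -/
lemma trL_ext_mul (W : WeilCohomology.{u, v, w} k K) {A B : SmProjVar k} {p q : Bool}
    (a : W.H A) {b : W.H B} (hb : b ∈ BD.par W p B) {a' : W.H A} (ha' : a' ∈ BD.par W q A)
    (b' : W.H B) :
    W.trL (A.prod B) (W.pull (fst A B) a * W.pull (snd A B) b *
      (W.pull (fst A B) a' * W.pull (snd A B) b')) =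
      (if (p && q) then (-1 : ℤ) else 1) • (W.trL A (a * a') * W.trL B (b * b')) := by
  have h1 := pull_swap_par W ha' hb
  have h2 : W.pull (fst A B) a * W.pull (snd A B) b * (W.pull (fst A B) a' *
      W.pull (snd A B) b') = (if (p && q) then (-1 : ℤ) else 1) •
        (W.pull (fst A B) (a * a') * W.pull (snd A B) (b * b')) := by
    rw [mul_assoc, ← mul_assoc (W.pull (snd A B) b), h1, smul_mul_assoc, mul_smul_comm,
      pull_mul', pull_mul']
    simp only [mul_assoc]
  rw [h2, map_zsmul, tr_ext]

/-- corresponding external products have the same parity and the same pairings, up to a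
constant factor -/
lemma extProd_pair {b : ℕ} {V : Fin b → SmProjVar k} {V' : Fin b → SmProjVar k'}
    {f : ∀ i, W.H (V i) → W'.H (V' i)} (hf : ∀ i, IsGood W W' (f i)) {y : ∀ i, W.H (V i)}
    (hy : Pure W y) :
    (∃ q, (extProd W.toCohomologyData (A := pt k) 1 y : W.H (prodVar (pt k) V)) ∈
        BD.par W q (prodVar (pt k) V) ∧
      (extProd W'.toCohomologyData (A := pt k') 1 (fun i => f i (y i)) :
        W'.H (prodVar (pt k') V')) ∈ BD.par W' q (prodVar (pt k') V')) ∧
    ∀ x : ∀ i, W.H (V i), Pure W x →
      W'.trL (prodVar (pt k') V')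
        ((extProd W'.toCohomologyData (A := pt k') 1 (fun i => f i (x i)) :
          W'.H (prodVar (pt k') V')) *
          (extProd W'.toCohomologyData (A := pt k') 1 (fun i => f i (y i)) :
          W'.H (prodVar (pt k') V'))) * W.trL (pt k) 1 =
      W'.trL (pt k') 1 * W.trL (prodVar (pt k) V)
        ((extProd W.toCohomologyData (A := pt k) 1 x : W.H (prodVar (pt k) V)) *
          (extProd W.toCohomologyData (A := pt k) 1 y : W.H (prodVar (pt k) V))) := by
  induction b with
  | zero =>
    have h1 : ∀ x : ∀ i, W.H (V i),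
        (extProd W.toCohomologyData (A := pt k) 1 x : W.H (prodVar (pt k) V)) =
          (1 : W.H (pt k)) := by
      intro x
      change W.pullA (𝟙 (pt k).toOver) 1 * (1 : W.H (pt k)) = 1
      rw [map_one, mul_one]
    have h2 : ∀ x : ∀ i, W'.H (V' i),
        (extProd W'.toCohomologyData (A := pt k') 1 x : W'.H (prodVar (pt k') V')) =
          (1 : W'.H (pt k')) := by
      intro x
      change W'.pullA (𝟙 (pt k').toOver) 1 * (1 : W'.H (pt k')) = 1
      rw [map_one, mul_one]
    refine ⟨⟨false, ?_, ?_⟩, fun x _ => ?_⟩
    · rw [h1]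
      exact W.gr_le_evK _ Even.zero (W.graded _).one_mem
    · rw [h2]
      exact W'.gr_le_evK _ Even.zero (W'.graded _).one_mem
    · rw [h1, h1, h2, h2]
      have e : W'.trL (pt k') ((1 : W'.H (pt k')) * 1) * W.trL (pt k) 1 =
          W'.trL (pt k') 1 * W.trL (pt k) ((1 : W.H (pt k)) * 1) := by
        rw [mul_one, mul_one]
      exact e
  | succ b ih =>
    obtain ⟨⟨q, hq, hq'⟩, ht⟩ := ih (V := fun i => V i.castSucc) (V' := fun i => V' i.castSucc)
      (f := fun i => f i.castSucc) (fun i => hf i.castSucc) (y := fun i => y i.castSucc)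
      fun i => hy i.castSucc
    obtain ⟨p, hp⟩ := hy (Fin.last b)
    refine ⟨?_, fun x hx => ?_⟩
    · refine ⟨xor q p, ?_, ?_⟩
      · rw [Can.extProd_succ]
        have h1 := pull_par W (fst (prodVar (pt k) fun i : Fin b => V i.castSucc)
          (V (Fin.last b))) hq
        have h2 := pull_par W (snd (prodVar (pt k) fun i : Fin b => V i.castSucc)
          (V (Fin.last b))) hp
        cases q <;> cases p
        · exact W.evK_mul_evK _ _ _ h1 h2
        · exact W.evK_mul_odK _ _ _ h1 h2
        · exact odK_mul_evK W _ h1 h2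
        · exact W.odK_mul_odK _ _ _ h1 h2
      · rw [Can.extProd_succ]
        have h1 := pull_par W' (fst (prodVar (pt k') fun i : Fin b => V' i.castSucc)
          (V' (Fin.last b))) hq'
        have h2 := pull_par W' (snd (prodVar (pt k') fun i : Fin b => V' i.castSucc)
          (V' (Fin.last b))) ((hf (Fin.last b)).par p _ hp)
        cases q <;> cases p
        · exact W'.evK_mul_evK _ _ _ h1 h2
        · exact W'.evK_mul_odK _ _ _ h1 h2
        · exact odK_mul_evK W' _ h1 h2
        · exact W'.odK_mul_odK _ _ _ h1 h2
    · obtain ⟨l, hl⟩ := hx (Fin.last b)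
      have e1 := trL_ext_mul W
        (extProd W.toCohomologyData (A := pt k) 1 (fun i : Fin b => x i.castSucc) :
          W.H (prodVar (pt k) fun i : Fin b => V i.castSucc)) hl hq (y (Fin.last b))
      have e2 := trL_ext_mul W'
        (extProd W'.toCohomologyData (A := pt k') 1
          (fun i : Fin b => f i.castSucc (x i.castSucc)) :
          W'.H (prodVar (pt k') fun i : Fin b => V' i.castSucc))
        ((hf (Fin.last b)).par l _ hl) hq' (f (Fin.last b) (y (Fin.last b)))
      have e3 := ht (fun i => x i.castSucc) fun i => hx i.castSucc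
      rw [Can.extProd_succ, Can.extProd_succ, Can.extProd_succ, Can.extProd_succ]
      refine (congrArg (· * W.trL (pt k) 1) e2).trans ?_
      refine Eq.trans ?_ (congrArg (W'.trL (pt k') 1 * ·) e1.symm)
      rw [← (hf (Fin.last b)).map_mul, (hf (Fin.last b)).tr]
      rw [smul_mul_assoc, mul_smul_comm]
      congr 1
      rw [mul_right_comm, e3, mul_assoc]

/-- The pairing of two classes on a product is equal to the pairing of the corresponding classes
on the corresponding product, up to a constant factor. -/
theorem exists_factor' {b : ℕ} {V : Fin b → SmProjVar k} {V' : Fin b → SmProjVar k'}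
    {f : ∀ i, W.H (V i) → W'.H (V' i)} (hf : ∀ i, IsGood W W' (f i)) :
    ∃ a : K, a ≠ 0 ∧ ∀ (z y : W.H (prodVar (pt k) V)) (z' y' : W'.H (prodVar (pt k') V')),
      (∀ x : ∀ i, W.H (V i), W'.trL (prodVar (pt k') V')
        (z' * (extProd W'.toCohomologyData (A := pt k') 1 (fun i => f i (x i)) :
          W'.H (prodVar (pt k') V'))) =
        W.trL (prodVar (pt k) V)
          (z * (extProd W.toCohomologyData (A := pt k) 1 x : W.H (prodVar (pt k) V)))) →
      (∀ x : ∀ i, W.H (V i), W'.trL (prodVar (pt k') V')
        (y' * (extProd W'.toCohomologyData (A := pt k') 1 (fun i => f i (x i)) :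
          W'.H (prodVar (pt k') V'))) =
        W.trL (prodVar (pt k) V)
          (y * (extProd W.toCohomologyData (A := pt k) 1 x : W.H (prodVar (pt k) V)))) →
      W'.trL (prodVar (pt k') V') (z' * y') = a * W.trL (prodVar (pt k) V) (z * y) := by
  have hτ := trL_pt_ne_zero W
  have hτ' := trL_pt_ne_zero W'
  refine ⟨W.trL (pt k) 1 / W'.trL (pt k') 1, div_ne_zero hτ hτ', fun z y z' y' hz hy => ?_⟩
  -- a class which corresponds to `y`
  have key : ∀ y : W.H (prodVar (pt k) V), ∃ y'' : W'.H (prodVar (pt k') V'),
      W'.trL (prodVar (pt k') V') (z' * y'') = W.trL (prodVar (pt k) V) (z * y) ∧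
      ∀ x : ∀ i, W.H (V i), Pure W x → W'.trL (prodVar (pt k') V')
        ((extProd W'.toCohomologyData (A := pt k') 1 (fun i => f i (x i)) :
          W'.H (prodVar (pt k') V')) * y'') * W.trL (pt k) 1 =
        W'.trL (pt k') 1 * W.trL (prodVar (pt k) V)
          ((extProd W.toCohomologyData (A := pt k) 1 x : W.H (prodVar (pt k) V)) * y) := by
    intro y
    have hy : y ∈ Submodule.span K {z | ∃ v : ∀ i, W.H (V i), Pure W v ∧
        z = (extProd W.toCohomologyData (A := pt k) 1 v : W.H (prodVar (pt k) V))} := by
      rw [span_pure W V]; trivial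
    induction hy using Submodule.span_induction with
    | mem y hy =>
      obtain ⟨v, hv, rfl⟩ := hy
      exact ⟨_, hz v, fun x hx => (extProd_pair hf hv).2 x hx⟩
    | zero => exact ⟨0, by rw [mul_zero, mul_zero, map_zero, map_zero], fun x _ => by
        rw [mul_zero, mul_zero, map_zero, map_zero, zero_mul, mul_zero]⟩
    | add a b _ _ ha hb =>
      obtain ⟨a', ha1, ha2⟩ := ha
      obtain ⟨b', hb1, hb2⟩ := hb
      refine ⟨a' + b', ?_, fun x hx => ?_⟩
      · rw [mul_add, mul_add, map_add, map_add, ha1, hb1]
      · rw [mul_add, mul_add, map_add, map_add, add_mul, mul_add, ha2 x hx, hb2 x hx]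
    | smul c a _ ha =>
      obtain ⟨a', ha1, ha2⟩ := ha
      refine ⟨c • a', ?_, fun x hx => ?_⟩
      · rw [mul_smul_comm, mul_smul_comm, map_smul, map_smul, ha1]
      · rw [mul_smul_comm, mul_smul_comm, map_smul, map_smul, smul_mul_assoc, mul_smul_comm,
          ha2 x hx]
  obtain ⟨y'', h1, h2⟩ := key y
  have h3 : ∀ x : ∀ i, W.H (V i), Pure W x → W'.trL (prodVar (pt k') V')
      ((W.trL (pt k) 1 • y'' - W'.trL (pt k') 1 • y') *
        (extProd W'.toCohomologyData (A := pt k') 1 (fun i => f i (x i)) :
          W'.H (prodVar (pt k') V'))) = 0 := by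
    intro x hx
    obtain ⟨⟨q, hq, hq'⟩, -⟩ := extProd_pair hf hx
    have e1 := trL_mul_par W q hq y
    have e2 := trL_mul_par W' q hq' y''
    rw [sub_mul, map_sub, smul_mul_assoc, smul_mul_assoc, map_smul, map_smul, hy x, smul_eq_mul,
      smul_eq_mul]
    have e3 := h2 x hx
    rw [e1, e2] at e3
    cases q with
    | false =>
      simp only [Bool.false_eq_true, if_false, one_mul] at e3
      rw [sub_eq_zero, mul_comm]
      exact e3
    | true =>
      simp only [if_true, neg_mul, one_mul, mul_neg, neg_inj] at e3
      rw [sub_eq_zero, mul_comm]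
      exact e3
  have h4 : W.trL (pt k) 1 • y'' - W'.trL (pt k') 1 • y' = 0 := by
    refine (W'.trace (prodVar (pt k') V')).nondegenerate _ fun t => ?_
    change W'.trL (prodVar (pt k') V') _ = 0
    have ht : t ∈ Submodule.span K {z | ∃ v : ∀ i, W'.H (V' i), Pure W' v ∧
        z = (extProd W'.toCohomologyData (A := pt k') 1 v : W'.H (prodVar (pt k') V'))} := by
      rw [span_pure W' V']; trivial
    induction ht using Submodule.span_induction with
    | mem t ht =>
      obtain ⟨v, hv, rfl⟩ := ht
      choose x hx using fun i => (hf i).bijective.2 (v i)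
      have h5 := h3 x fun i => by
        obtain ⟨q, hq⟩ := hv i
        rw [← hx i] at hq
        exact ⟨q, (hf i).par_symm hq⟩
      have h6 : (fun i => f i (x i)) = v := funext hx
      rw [h6] at h5
      exact h5
    | zero => rw [mul_zero, map_zero]
    | add a b _ _ ha hb => rw [mul_add, map_add, ha, hb, add_zero]
    | smul c a _ ha => rw [mul_smul_comm, map_smul, ha, smul_zero]
  have h5 : W'.trL (pt k') 1 * W'.trL (prodVar (pt k') V') (z' * y') =
      W.trL (pt k) 1 * W'.trL (prodVar (pt k') V') (z' * y'') := by
    have e1 : W'.trL (prodVar (pt k') V') (z' * (W'.trL (pt k') 1 • y')) =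
        W'.trL (pt k') 1 * W'.trL (prodVar (pt k') V') (z' * y') := by
      rw [mul_smul_comm, map_smul, smul_eq_mul]
    have e2 : W'.trL (prodVar (pt k') V') (z' * (W.trL (pt k) 1 • y'')) =
        W.trL (pt k) 1 * W'.trL (prodVar (pt k') V') (z' * y'') := by
      rw [mul_smul_comm, map_smul, smul_eq_mul]
    rw [← e1, ← e2, ← sub_eq_zero.1 h4]
  rw [h1] at h5
  rw [div_mul_eq_mul_div, eq_div_iff hτ', mul_comm]
  exact h5

end

/-- Comparison isomorphisms of specialisations are good. -/
lemma isGood_of_areSpecializations {W : WeilCohomology.{u, v, w} k K}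
    {W' : WeilCohomology.{u', v, w'} k' K} {P : ℕ} {V : Fin P → SmProjVar k}
    {V' : Fin P → SmProjVar k'} {φ : ∀ c, W.H (V c) → W'.H (V' c)}
    (hφ : AreSpecializations W.toCohomologyData W'.toCohomologyData V V' φ) (c : Fin P) :
    IsGood W W' (φ c) where
  bijective := hφ.bijective c
  map_mul := hφ.map_mul c
  map_add := hφ.map_add c
  tr x := hφ.tr c x
  par q x hx := by
    cases q with
    | false =>
      refine W.evK_induction (V c) (p := fun x => φ c x ∈ BD.par W' false (V' c))
        (fun i hi x hx => ?_) ?_ (fun a b ha hb => ?_) hx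
      · exact W'.gr_le_evK _ hi (hφ.map_mem c i x hx)
      · rw [hφ.map_zero' c]
        exact Submodule.zero_mem _
      · rw [hφ.map_add]
        exact Submodule.add_mem _ ha hb
    | true =>
      refine W.odK_induction (V c) (p := fun x => φ c x ∈ BD.par W' true (V' c))
        (fun i hi x hx => ?_) ?_ (fun a b ha hb => ?_) hx
      · exact W'.gr_le_odK _ hi (hφ.map_mem c i x hx)
      · rw [hφ.map_zero' c]
        exact Submodule.zero_mem _
      · rw [hφ.map_add]
        exact Submodule.add_mem _ ha hb

/-- The pairing of two classes on a product of the `V c` is equal to the pairing of the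
corresponding classes on the product of the `V' c`, up to a constant factor. -/
theorem exists_factor {W : WeilCohomology.{u, v, w} k K} {W' : WeilCohomology.{u', v, w'} k' K}
    {P : ℕ} {V : Fin P → SmProjVar k} {V' : Fin P → SmProjVar k'}
    {φ : ∀ c, W.H (V c) → W'.H (V' c)}
    (hφ : AreSpecializations W.toCohomologyData W'.toCohomologyData V V' φ) {b : ℕ}
    (c : Fin b → Fin P) :
    ∃ a : K, a ≠ 0 ∧ ∀ (z y : W.H (prodVar (pt k) fun i => V (c i)))
      (z' y' : W'.H (prodVar (pt k') fun i => V' (c i))),
      (∀ x : ∀ i, W.H (V (c i)), W'.trL (prodVar (pt k') fun i => V' (c i))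
        (z' * (extProd W'.toCohomologyData (A := pt k') 1 (fun i => φ (c i) (x i)) :
          W'.H (prodVar (pt k') fun i => V' (c i)))) =
        W.trL (prodVar (pt k) fun i => V (c i))
          (z * (extProd W.toCohomologyData (A := pt k) 1 x :
            W.H (prodVar (pt k) fun i => V (c i))))) →
      (∀ x : ∀ i, W.H (V (c i)), W'.trL (prodVar (pt k') fun i => V' (c i))
        (y' * (extProd W'.toCohomologyData (A := pt k') 1 (fun i => φ (c i) (x i)) :
          W'.H (prodVar (pt k') fun i => V' (c i)))) =
        W.trL (prodVar (pt k) fun i => V (c i))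
          (y * (extProd W.toCohomologyData (A := pt k) 1 x :
            W.H (prodVar (pt k) fun i => V (c i))))) →
      W'.trL (prodVar (pt k') fun i => V' (c i)) (z' * y') =
        a * W.trL (prodVar (pt k) fun i => V (c i)) (z * y) :=
  exists_factor' (V := fun i => V (c i)) (V' := fun i => V' (c i)) (f := fun i => φ (c i))
    fun i => isGood_of_areSpecializations hφ (c i)

end Pool.Agent.Helper29.GD
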