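import Mathlib
import Pool.Agent.Helper11.CanTypes
import Pool.Agent.Helper11.Point

/-!
# The dimension of a product
-/

universe u

open CategoryTheory Finset

namespace Pool.Agent.Helper29.GD

open Pool.Agent.Helper10 SmProjVar Pool.Agent.Helper11
open Pool.Agent.Helper11.Obs (prodVar)

variable {k : Type u} [Field k]

lemma dim_prodVar (A : SmProjVar k) {b : ℕ} (V : Fin b → SmProjVar k) :
    (prodVar A V).dim = A.dim + ∑ i, (V i).dim := by
  induction b with
  | zero => rw [Fin.sum_univ_zero, add_zero]; rfl
  | succ b ih =>
    change (V (Fin.last b)).dim + (prodVar A fun i : Fin b => V i.castSucc).dim = _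
    rw [ih, Fin.sum_univ_castSucc]
    omega

/-- The dimension of the `r`-th power of a product. -/
theorem dim_prodVar_pow {b : ℕ} (V : Fin b → SmProjVar k) (r : ℕ) :
    (prodVar (pt k) fun q : Fin (r * b) => V q.modNat).dim = r * (prodVar (pt k) V).dim := by
  have h0 : (pt k).dim = 0 := rfl
  rw [dim_prodVar, dim_prodVar, h0, zero_add, zero_add,
    ← Equiv.sum_comp (finProdFinEquiv : Fin r × Fin b ≃ Fin (r * b)), Fintype.sum_prod_type]
  have h1 : ∀ (i : Fin r) (j : Fin b), (finProdFinEquiv (i, j)).modNat = j := by
    intro i j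
    have := finProdFinEquiv.symm_apply_apply (i, j)
    rw [finProdFinEquiv_symm_apply] at this
    exact congrArg Prod.snd this
  simp only [h1, sum_const, card_univ, Fintype.card_fin, smul_eq_mul]

end Pool.Agent.Helper29.GD
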