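import Mathlib
import Pool.Agent.Helper47.Desc.Act

/-!
# Power sums of the classes in an orbit of a group of semilinear automorphisms

Let a group of semilinear automorphisms act on `Y`, let `z` be a cycle class on `Y` with a finite
orbit `z_1, …, z_a`.  The classes `z_1 × … × z_1 + … + z_a × … × z_a` on the powers of `Y` are
invariant, and if all of them are homologically trivial, so is `z`.
-/

universe u v w

open CategoryTheory AlgebraicGeometry Limits

namespace Pool.Agent.Helper29.GD

open Pool.Agent.Helper10 Pool.Agent.Helper10.SmProjVar Pool.Agent.Helper47.Chow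
  Pool.Agent.Helper47.Desc

section Algebra

/-- In characteristic zero, elements all of whose power sums vanish are zero. -/
lemma eq_zero_of_psum {F : Type*} [Field F] [CharZero F] {ι : Type*} (s : Finset ι) (c : ι → F)
    (h : ∀ r : ℕ, ∑ i ∈ s, c i ^ (r + 1) = 0) : ∀ i ∈ s, c i = 0 := by
  classical
  intro i hi
  by_contra hne
  have h1 : ∀ p : Polynomial F, ∑ j ∈ s, c j * p.eval (c j) = 0 := by
    intro p
    induction p using Polynomial.induction_on' with
    | add p q hp hq =>
      simp only [Polynomial.eval_add, mul_add, Finset.sum_add_distrib, hp, hq, add_zero]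
    | monomial n a =>
      have : ∑ j ∈ s, c j * (Polynomial.monomial n a).eval (c j) =
          a * ∑ j ∈ s, c j ^ (n + 1) := by
        rw [Finset.mul_sum]
        refine Finset.sum_congr rfl fun j _ => ?_
        rw [Polynomial.eval_monomial]
        ring
      rw [this, h, mul_zero]
  have h2 := h1 (∏ v ∈ (s.image c).erase (c i), (Polynomial.X - Polynomial.C v))
  rw [← Finset.sum_filter_add_sum_filter_not s (fun j => c j = c i)] at h2
  have h3 : ∑ j ∈ s with ¬ c j = c i, c j *
      (∏ v ∈ (s.image c).erase (c i), (Polynomial.X - Polynomial.C v)).eval (c j) = 0 := by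
    refine Finset.sum_eq_zero fun j hj => ?_
    rw [Finset.mem_filter] at hj
    rw [Polynomial.eval_prod, Finset.prod_eq_zero
      (Finset.mem_erase.2 ⟨hj.2, Finset.mem_image_of_mem c hj.1⟩), mul_zero]
    rw [Polynomial.eval_sub, Polynomial.eval_X, Polynomial.eval_C, sub_self]
  have h4 : ∑ j ∈ s with c j = c i, c j *
      (∏ v ∈ (s.image c).erase (c i), (Polynomial.X - Polynomial.C v)).eval (c j) =
      ((s.filter fun j => c j = c i).card : F) * (c i *
      (∏ v ∈ (s.image c).erase (c i), (Polynomial.X - Polynomial.C v)).eval (c i)) := by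
    rw [← nsmul_eq_mul, ← Finset.sum_const]
    refine Finset.sum_congr rfl fun j hj => ?_
    rw [(Finset.mem_filter.1 hj).2]
  rw [h3, h4, add_zero] at h2
  have h5 : (∏ v ∈ (s.image c).erase (c i), (Polynomial.X - Polynomial.C v)).eval (c i) ≠ 0 := by
    rw [Polynomial.eval_prod, Finset.prod_ne_zero_iff]
    intro v hv
    rw [Polynomial.eval_sub, Polynomial.eval_X, Polynomial.eval_C, sub_ne_zero]
    exact fun h => (Finset.mem_erase.1 hv).1 h.symm
  have h6 : ((s.filter fun j => c j = c i).card : F) ≠ 0 := by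
    rw [Nat.cast_ne_zero]
    exact Finset.card_ne_zero.2 ⟨i, Finset.mem_filter.2 ⟨hi, rfl⟩⟩
  exact mul_ne_zero h6 (mul_ne_zero hne h5) h2

end Algebra

section Powers

variable {k : Type u} [Field k]

/-- The power `Y ^ (r + 1)`. -/
noncomputable def powS (Y : SmProjVar k) : ℕ → SmProjVar k
  | 0 => Y
  | r + 1 => Y.prod (powS Y r)

lemma powS_zero (Y : SmProjVar k) : powS Y 0 = Y := rfl

lemma powS_succ (Y : SmProjVar k) (r : ℕ) : powS Y (r + 1) = Y.prod (powS Y r) := rfl

lemma dim_powS (Y : SmProjVar k) (r : ℕ) : (powS Y r).dim = (r + 1) * Y.dim := by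
  induction r with
  | zero => rw [powS_zero, zero_add, one_mul]
  | succ r ih =>
    change (powS Y r).dim + Y.dim = _
    rw [ih]
    ring

/-- The semilinear automorphism `g × … × g` of `Y ^ (r + 1)`, over the same automorphism of `k`. -/
noncomputable def powA {Y : SmProjVar k} (g : SemiAut Y) :
    ∀ r, {t : SemiAut (powS Y r) // t.base = g.base}
  | 0 => ⟨g, rfl⟩
  | r + 1 => ⟨prodAut g (powA g r).1 (powA g r).2.symm, rfl⟩

/-- The semilinear automorphism `g × … × g` of `Y ^ (r + 1)`. -/
noncomputable def powG {Y : SmProjVar k} (g : SemiAut Y) (r : ℕ) : SemiAut (powS Y r) :=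
  (powA g r).1

lemma powG_base {Y : SmProjVar k} (g : SemiAut Y) (r : ℕ) : (powG g r).base = g.base :=
  (powA g r).2

lemma powG_zero {Y : SmProjVar k} (g : SemiAut Y) : powG g 0 = g := rfl

lemma powG_succ {Y : SmProjVar k} (g : SemiAut Y) (r : ℕ) :
    powG g (r + 1) = prodAut g (powG g r) (powG_base g r).symm := rfl

variable {K : Type v} [Field K] [CharZero K] {W : WeilCohomology.{u, v, w} k K}

/-- The class `z × … × z` on `Y ^ (r + 1)`. -/
noncomputable def powC (C : ChowTheory W) {Y : SmProjVar k} (z : CH Y) : ∀ r, CH (powS Y r)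
  | 0 => z
  | r + 1 => C.mul _ (C.pull (fst Y (powS Y r)) z) (C.pull (snd Y (powS Y r)) (powC C z r))

/-- The class `x × … × x` on `Y ^ (r + 1)`. -/
noncomputable def powH (W : WeilCohomology.{u, v, w} k K) {Y : SmProjVar k} (x : W.H Y) :
    ∀ r, W.H (powS Y r)
  | 0 => x
  | r + 1 => W.pull (fst Y (powS Y r)) x * W.pull (snd Y (powS Y r)) (powH W x r)

variable (C : ChowTheory W) {Y : SmProjVar k}

lemma powC_succ (z : CH Y) (r : ℕ) : powC C z (r + 1) =
    C.mul _ (C.pull (fst Y (powS Y r)) z) (C.pull (snd Y (powS Y r)) (powC C z r)) := rfl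

lemma powH_succ (x : W.H Y) (r : ℕ) : powH W x (r + 1) =
    W.pull (fst Y (powS Y r)) x * W.pull (snd Y (powS Y r)) (powH W x r) := rfl

lemma powC_mem {i : ℕ} {z : CH Y} (hz : z ∈ CHi Y i) (r : ℕ) :
    powC C z r ∈ CHi (powS Y r) ((r + 1) * i) := by
  induction r with
  | zero => rw [zero_add, one_mul]; exact hz
  | succ r ih =>
    have h := C.mul_mem _ _ _ _ _ (C.pull_mem (fst Y (powS Y r)) i z hz)
      (C.pull_mem (snd Y (powS Y r)) _ _ ih)
    have e : i + (r + 1) * i = (r + 1 + 1) * i := by ring
    rw [e] at h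
    exact h

lemma cl_powC (z : CH Y) (r : ℕ) : C.cl _ (powC C z r) = powH W (C.cl Y z) r := by
  induction r with
  | zero => rfl
  | succ r ih =>
    have h : C.cl _ (C.mul (Y.prod (powS Y r)) (C.pull (fst Y (powS Y r)) z)
        (C.pull (snd Y (powS Y r)) (powC C z r))) = W.pull (fst Y (powS Y r)) (C.cl Y z) *
          W.pull (snd Y (powS Y r)) (powH W (C.cl Y z) r) := by
      rw [C.cl_mul, C.cl_pull, C.cl_pull, ih]
    exact h

/-- `z × … × z` is compatible with semilinear automorphisms. -/
lemma chow_powC (hC : IsEquivariant C) (g : SemiAut Y) (z : CH Y) (r : ℕ) :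
    (powG g r).chow (powC C z r) = powC C (g.chow z) r := by
  induction r with
  | zero => rfl
  | succ r ih =>
    have h1 := hC.mul _ (powG g (r + 1)) (C.pull (fst Y (powS Y r)) z)
      (C.pull (snd Y (powS Y r)) (powC C z r))
    have h2 := hC.pull (powG g (r + 1)) g (fst Y (powS Y r)) rfl
      (comm_fst g (powG g r) (powG_base g r).symm) z
    have h3 := hC.pull (powG g (r + 1)) (powG g r) (snd Y (powS Y r)) (powG_base g r).symm
      (comm_snd g (powG g r) (powG_base g r).symm) (powC C z r)
    rw [ih] at h3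
    refine h1.trans ?_
    exact congrArg₂ (C.ops.mul _) h2 h3

/-- The pairing of `z × … × z` with `x × … × x`. -/
lemma tr_powH {i : ℕ} (z x : W.H Y) (hz : z ∈ W.gr Y (2 * i)) (r : ℕ) :
    W.tr (powS Y r) (powH W z r * powH W x r) = W.tr Y (z * x) ^ (r + 1) ∧
      powH W z r ∈ W.gr (powS Y r) (2 * ((r + 1) * i)) := by
  induction r with
  | zero =>
    refine ⟨by rw [zero_add, pow_one]; rfl, ?_⟩
    rw [zero_add, one_mul]
    exact hz
  | succ r ih =>
    obtain ⟨ih1, ih2⟩ := ih
    have h1 := (W.pull_hom (snd Y (powS Y r))).map_mem _ _ ih2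
    constructor
    · have h2 : W.pull (fst Y (powS Y r)) z * W.pull (snd Y (powS Y r)) (powH W z r) *
          (W.pull (fst Y (powS Y r)) x * W.pull (snd Y (powS Y r)) (powH W x r)) =
          W.pull (fst Y (powS Y r)) (z * x) *
            W.pull (snd Y (powS Y r)) (powH W z r * powH W x r) := by
        rw [(W.pull_hom (fst Y (powS Y r))).map_mul, (W.pull_hom (snd Y (powS Y r))).map_mul]
        rw [_root_.mul_assoc, ← _root_.mul_assoc (W.pull (snd Y (powS Y r)) (powH W z r)),
          even_comm _ _ _ _ (W.pull (fst Y (powS Y r)) x) h1]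
        simp only [_root_.mul_assoc]
      refine (congrArg (W.tr (Y.prod (powS Y r))) h2).trans ?_
      refine (W.tr_prod Y (powS Y r) (z * x) (powH W z r * powH W x r)).trans ?_
      rw [ih1, pow_succ' _ (r + 1)]
    · have h3 := (W.graded (Y.prod (powS Y r))).mul_mem _ _ _ _
        ((W.pull_hom (fst Y (powS Y r))).map_mem _ _ hz) h1
      have e : 2 * i + 2 * ((r + 1) * i) = 2 * ((r + 1 + 1) * i) := by ring
      rw [e] at h3
      exact h3

end Powers

end Pool.Agent.Helper29.GD
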