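import Mathlib
import Pool.Agent.Helper29.GD.PS
import Pool.Agent.Helper47.Chow.Ext

/-!
# Numerically trivial classes and orbits of groups of semilinear automorphisms
-/

universe u v w

open CategoryTheory AlgebraicGeometry Limits

namespace Pool.Agent.Helper29.GD

open Pool.Agent.Helper10 Pool.Agent.Helper10.SmProjVar Pool.Agent.Helper47.Chow
  Pool.Agent.Helper47.Desc

variable {k : Type u} [Field k] {K : Type v} [Field K] [CharZero K]
  {W : WeilCohomology.{u, v, w} k K}

/-- The class `a` of codimension `j` on `X` is numerically trivial. -/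
def NumZero (C : ChowTheory W) (X : SmProjVar k) (j : ℕ) (a : CH X) : Prop :=
  ∀ i, j + i = X.dim → ∀ b ∈ CHi X i, W.tr X (C.ops.cl X a * C.ops.cl X b) = 0

section Calculus

variable {C : ChowTheory W} {X Y : SmProjVar k}

lemma numZero_zero (j : ℕ) : NumZero C X j 0 := by
  intro i _ b _
  change W.tr X (C.cl X 0 * C.cl X b) = 0
  rw [map_zero, zero_mul]
  exact ChowTheory.tr_zero X

lemma NumZero.add {j : ℕ} {a a' : CH X} (h : NumZero C X j a) (h' : NumZero C X j a') :
    NumZero C X j (a + a') := by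
  intro i hi b hb
  change W.tr X (C.cl X (a + a') * C.cl X b) = 0
  rw [map_add, add_mul, (W.trace X).map_add]
  exact (congrArg₂ (· + ·) (h i hi b hb) (h' i hi b hb)).trans (add_zero 0)

lemma numZero_sum {ι : Type*} {j : ℕ} (s : Finset ι) (a : ι → CH X)
    (h : ∀ l ∈ s, NumZero C X j (a l)) : NumZero C X j (∑ l ∈ s, a l) := by
  classical
  induction s using Finset.induction_on with
  | empty => rw [Finset.sum_empty]; exact numZero_zero j
  | insert l s hl ih =>
    rw [Finset.sum_insert hl]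
    exact (h l (Finset.mem_insert_self l s)).add
      (ih fun l' hl' => h l' (Finset.mem_insert_of_mem hl'))

lemma NumZero.mul {j l : ℕ} {a b : CH X} (h : NumZero C X j a) (hb : b ∈ CHi X l) :
    NumZero C X (j + l) (C.mul X a b) := by
  intro i hi c hc
  have h1 := h (l + i) (by omega) (C.mul X b c) (C.mul_mem _ _ _ _ _ hb hc)
  change W.tr X (C.cl X a * C.cl X (C.mul X b c)) = 0 at h1
  change W.tr X (C.cl X (C.mul X a b) * C.cl X c) = 0
  rwa [C.cl_mul, _root_.mul_assoc, ← C.cl_mul]

lemma NumZero.mul' {j l : ℕ} {a b : CH X} (hb : b ∈ CHi X l) (h : NumZero C X j a) :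
    NumZero C X (l + j) (C.mul X b a) := by
  rw [C.mul_comm, add_comm]
  exact h.mul hb

/-- Classes of codimension larger than the dimension are zero. -/
lemma eq_zero_of_dim_lt {j : ℕ} {a : CH X} (ha : a ∈ CHi X j) (hj : X.dim < j) : a = 0 := by
  obtain ⟨z, hz, rfl⟩ := ha
  have h : z = 0 := by
    refine Finsupp.ext fun x => ?_
    by_contra h
    have := hz x h
    omega
  rw [h]
  rfl

lemma NumZero.pull {j : ℕ} {a : CH Y} (ha : a ∈ CHi Y j) (h : NumZero C Y j a)
    (f : X.toOver ⟶ Y.toOver) : NumZero C X j (C.pull f a) := by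
  by_cases hj : Y.dim < j
  · rw [eq_zero_of_dim_lt ha hj, map_zero]
    exact numZero_zero j
  · intro i hi b hb
    have hp : C.push f b ∈ CHi Y (Y.dim - j) := C.push_mem f i (Y.dim - j) (by omega) b hb
    have h1 := h (Y.dim - j) (by omega) _ hp
    change W.tr Y (C.cl Y a * C.cl Y (C.push f b)) = 0 at h1
    change W.tr X (C.cl X (C.pull f a) * C.cl X b) = 0
    rw [← C.cl_mul, C.mul_comm, C.cl_mul, C.cl_pull, ← C.cl_push, ← C.cl_mul, C.mul_comm,
      C.cl_mul, h1]

lemma NumZero.push {j l : ℕ} {a : CH X} (h : NumZero C X j a)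
    (f : X.toOver ⟶ Y.toOver) (hl : j + Y.dim = l + X.dim) : NumZero C Y l (C.push f a) := by
  intro i hi b hb
  have h1 := h i (by omega) (C.pull f b) (C.pull_mem f i b hb)
  change W.tr X (C.cl X a * C.cl X (C.pull f b)) = 0 at h1
  change W.tr Y (C.cl Y (C.push f a) * C.cl Y b) = 0
  rw [C.cl_push, ← C.cl_pull, h1]

/-- A class of top degree of trace zero is zero. -/
lemma eq_zero_of_tr_eq_zero {x : W.H X} (hx : x ∈ W.gr X (2 * X.dim)) (h : W.tr X x = 0) :
    x = 0 := by
  obtain ⟨y, -, hy⟩ := (W.trace X).bijective 0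
  rw [hy x ⟨hx, h⟩, hy 0 ⟨Submodule.zero_mem _, ChowTheory.tr_zero X⟩]

/-- Semilinear automorphisms preserve numerical triviality. -/
lemma NumZero.chow (hC : IsEquivariant C) (g : SemiAut X) {j : ℕ} {a : CH X}
    (ha : a ∈ CHi X j) (h : NumZero C X j a) : NumZero C X j (g.chow a) := by
  intro i hi b hb
  have hb' : SemiAut.chow g⁻¹ b ∈ CHi X i := chow_mem _ _ _ hb
  have h1 : C.cl X (C.mul X a (SemiAut.chow g⁻¹ b)) = 0 := by
    refine eq_zero_of_tr_eq_zero ?_ ?_
    · have := C.cl_mem X _ _ (C.mul_mem X _ _ _ _ ha hb')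
      rwa [hi] at this
    · rw [C.cl_mul]
      exact h i hi _ hb'
  have h2 : C.cl X (C.mul X (g.chow a) (g.chow (SemiAut.chow g⁻¹ b))) = 0 := by
    have h3 := hC.mul X g a (SemiAut.chow g⁻¹ b)
    exact (congrArg (C.cl X) h3).symm.trans (hC.cl X g _ h1)
  rw [← chow_mul, mul_inv_cancel, chow_one] at h2
  change W.tr X (C.cl X (g.chow a) * C.cl X b) = 0
  rw [← C.cl_mul, h2]
  exact ChowTheory.tr_zero X

end Calculus

section Orbits

variable {C : ChowTheory W} {Y : SmProjVar k}

lemma numZero_powC {j : ℕ} {z : CH Y} (hz : z ∈ CHi Y j) (h : NumZero C Y j z) (r : ℕ) :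
    NumZero C (powS Y r) ((r + 1) * j) (powC C z r) := by
  cases r with
  | zero => rw [zero_add, one_mul]; exact h
  | succ r =>
    have h1 := (h.pull hz (fst Y (powS Y r))).mul
      (C.pull_mem (snd Y (powS Y r)) _ _ (powC_mem C hz r))
    have e : j + (r + 1) * j = (r + 1 + 1) * j := by ring
    rw [e] at h1
    exact h1

/-- **Power sums.** Let a group act on `Y` by semilinear automorphisms and let `z` be a numerically
trivial class with a finite orbit.  If the invariant numerically trivial classes on the powers of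
`Y` are homologically trivial, so is `z`. -/
theorem cl_eq_zero_of_powers (hC : IsEquivariant C) {Γ : Type*} [Group Γ] (ρ : Γ →* SemiAut Y)
    {j : ℕ} {z : CH Y} (hz : z ∈ CHi Y j) (h : NumZero C Y j z)
    (hfin : (Set.range fun γ => (ρ γ).chow z).Finite)
    (hD : ∀ r, ∀ u ∈ CHi (powS Y r) ((r + 1) * j), (∀ γ, (powG (ρ γ) r).chow u = u) →
      NumZero C (powS Y r) ((r + 1) * j) u → C.ops.cl _ u = 0) : C.ops.cl Y z = 0 := by
  classical
  let O : Finset (CH Y) := hfin.toFinset
  have hO : ∀ y ∈ O, ∃ γ, (ρ γ).chow z = y := by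
    intro y hy
    exact hfin.mem_toFinset.1 hy
  have hOm : ∀ y ∈ O, y ∈ CHi Y j := by
    intro y hy
    obtain ⟨γ, rfl⟩ := hO y hy
    exact chow_mem _ _ _ hz
  have hOn : ∀ y ∈ O, NumZero C Y j y := by
    intro y hy
    obtain ⟨γ, rfl⟩ := hO y hy
    exact h.chow hC _ hz
  have hOs : ∀ γ, ∀ y ∈ O, (ρ γ).chow y ∈ O := by
    intro γ y hy
    obtain ⟨δ, rfl⟩ := hO y hy
    rw [← chow_mul, ← map_mul]
    exact hfin.mem_toFinset.2 ⟨γ * δ, rfl⟩
  have hzO : z ∈ O := hfin.mem_toFinset.2 ⟨1, (congrArg (fun g => SemiAut.chow g z) (map_one ρ)).trans (chow_one z)⟩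
  -- the power sums are invariant
  have hinv : ∀ r γ, (powG (ρ γ) r).chow (∑ y ∈ O, powC C y r) = ∑ y ∈ O, powC C y r := by
    intro r γ
    rw [map_sum]
    refine Finset.sum_bij' (i := fun y _ => (ρ γ).chow y) (j := fun y _ => (ρ γ⁻¹).chow y)
      (fun y hy => hOs γ y hy) (fun y hy => hOs γ⁻¹ y hy) ?_ ?_ ?_
    · intro y _
      rw [← chow_mul, ← map_mul, inv_mul_cancel, map_one, chow_one]
    · intro y _
      rw [← chow_mul, ← map_mul, mul_inv_cancel, map_one, chow_one]
    · intro y _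
      exact chow_powC C hC _ _ _
  -- so they are homologically trivial
  have hcl : ∀ r, ∑ y ∈ O, powH W (C.cl Y y) r = 0 := by
    intro r
    have h1 : C.cl _ (∑ y ∈ O, powC C y r) = 0 := by
      refine hD r _ ?_ (hinv r) ?_
      · exact Submodule.sum_mem (CHiL (powS Y r) ((r + 1) * j))
          fun y hy => powC_mem C (hOm y hy) r
      · exact numZero_sum _ _ fun y hy => numZero_powC (hOm y hy) (hOn y hy) r
    rw [map_sum] at h1
    rw [← h1]
    exact Finset.sum_congr rfl fun y _ => (cl_powC C y r).symm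
  -- the pairings vanish
  refine C.cl_eq_zero_of_tr z fun x => ?_
  refine eq_zero_of_psum O (fun y => W.tr Y (C.cl Y y * x)) (fun r => ?_) z hzO
  have h2 : W.tr (powS Y r) ((∑ y ∈ O, powH W (C.cl Y y) r) * powH W x r) = 0 := by
    rw [hcl r, zero_mul]
    exact ChowTheory.tr_zero _
  rw [Finset.sum_mul] at h2
  change trL W _ _ = 0 at h2
  rw [map_sum] at h2
  rw [← h2]
  refine Finset.sum_congr rfl fun y hy => ?_
  exact ((tr_powH (C.cl Y y) x (C.cl_mem Y j y (hOm y hy)) r).1).symm

end Orbits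

end Pool.Agent.Helper29.GD
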