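import Mathlib
import Pool.Agent.Helper29.GD.NT
import Pool.Agent.Helper11.ObsTypes

/-!
# Semilinear automorphisms of powers
-/

universe u v w

open CategoryTheory AlgebraicGeometry Limits

namespace Pool.Agent.Helper29.GD

open Pool.Agent.Helper10 Pool.Agent.Helper10.SmProjVar Pool.Agent.Helper47.Chow
  Pool.Agent.Helper47.Desc Pool.Agent.Helper11.Obs

variable {k : Type u} [Field k]

/-- The semilinear automorphism `g × … × g` of `X ^ (n + 1)`, over the same automorphism
of `k`. -/
noncomputable def actA {X : SmProjVar k} (g : SemiAut X) :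
    ∀ n, {t : SemiAut (power X n) // t.base = g.base}
  | 0 => ⟨g, rfl⟩
  | n + 1 => ⟨prodAut (actA g n).1 g (actA g n).2, (actA g n).2⟩

/-- The semilinear automorphism `g × … × g` of `X ^ (n + 1)`. -/
noncomputable def onPower {X : SmProjVar k} (g : SemiAut X) (n : ℕ) : SemiAut (power X n) :=
  (actA g n).1

lemma onPower_base {X : SmProjVar k} (g : SemiAut X) (n : ℕ) : (onPower g n).base = g.base :=
  (actA g n).2

lemma onPower_succ {X : SmProjVar k} (g : SemiAut X) (n : ℕ) :
    onPower g (n + 1) = prodAut (onPower g n) g (onPower_base g n) := rfl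

lemma prodAut_congr {X Y : SmProjVar k} {g g' : SemiAut X} {h h' : SemiAut Y}
    (e : g.base = h.base) (hg : g = g') (hh : h = h') (e' : g'.base = h'.base) :
    prodAut g h e = prodAut g' h' e' := by
  subst hg
  subst hh
  rfl

lemma onPower_mul {X : SmProjVar k} (g h : SemiAut X) (n : ℕ) :
    onPower (g * h) n = onPower g n * onPower h n := by
  induction n with
  | zero => rfl
  | succ n ih =>
    rw [onPower_succ, onPower_succ, onPower_succ]
    exact (prodAut_congr _ ih rfl (base_mul_eq (onPower_base g n) (onPower_base h n))).trans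
      (prodAut_mul _ _ _ _ _ _)

lemma onPower_one {X : SmProjVar k} (n : ℕ) : onPower (1 : SemiAut X) n = 1 := by
  induction n with
  | zero => rfl
  | succ n ih =>
    rw [onPower_succ]
    exact (prodAut_congr _ ih rfl base_one_eq).trans prodAut_one

/-- The action of semilinear automorphisms on the powers. -/
noncomputable def powerHom (X : SmProjVar k) (n : ℕ) : SemiAut X →* SemiAut (power X n) where
  toFun g := onPower g n
  map_one' := onPower_one n
  map_mul' g h := onPower_mul g h n

lemma powerHom_apply {X : SmProjVar k} (n : ℕ) (g : SemiAut X) : powerHom X n g = onPower g n :=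
  rfl

/-- `A × (N × X) → B × X` -/
noncomputable def stepS {A N B : SmProjVar k} (X : SmProjVar k)
    (s : (A.prod N).toOver ⟶ B.toOver) : (A.prod (N.prod X)).toOver ⟶ (B.prod X).toOver :=
  lift (lift (fst A (N.prod X)) (snd A (N.prod X) ≫ fst N X) ≫ s) (snd A (N.prod X) ≫ snd N X)

/-- `B × X → A × (N × X)` -/
noncomputable def stepP {A N B : SmProjVar k} (X : SmProjVar k)
    (p : B.toOver ⟶ (A.prod N).toOver) : (B.prod X).toOver ⟶ (A.prod (N.prod X)).toOver :=
  lift (fst B X ≫ p ≫ fst A N) (lift (fst B X ≫ p ≫ snd A N) (snd B X))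

lemma stepS_stepP {A N B : SmProjVar k} (X : SmProjVar k) (s : (A.prod N).toOver ⟶ B.toOver)
    (p : B.toOver ⟶ (A.prod N).toOver) (h : s ≫ p = 𝟙 _) : stepS X s ≫ stepP X p = 𝟙 _ := by
  have h1 : s ≫ p ≫ fst A N = fst A N := by rw [← Category.assoc, h, Category.id_comp]
  have h2 : s ≫ p ≫ snd A N = snd A N := by rw [← Category.assoc, h, Category.id_comp]
  unfold stepS stepP
  refine SmProjVar.hom_ext ?_ (SmProjVar.hom_ext ?_ ?_)
  · rw [Category.assoc, SmProjVar.lift_fst, SmProjVar.lift_fst_assoc, Category.assoc, h1,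
      SmProjVar.lift_fst, Category.id_comp]
  · rw [Category.assoc, Category.assoc, SmProjVar.lift_snd_assoc, SmProjVar.lift_fst,
      SmProjVar.lift_fst_assoc, Category.assoc, h2, SmProjVar.lift_snd, Category.id_comp]
  · rw [Category.assoc, Category.assoc, SmProjVar.lift_snd_assoc, SmProjVar.lift_snd,
      SmProjVar.lift_snd, Category.id_comp]

/-- `A × T → A × B` -/
noncomputable def idStep (A : SmProjVar k) {T B : SmProjVar k} (s : T.toOver ⟶ B.toOver) :
    (A.prod T).toOver ⟶ (A.prod B).toOver := lift (fst A T) (snd A T ≫ s)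

lemma idStep_idStep (A : SmProjVar k) {T B : SmProjVar k} (s : T.toOver ⟶ B.toOver)
    (p : B.toOver ⟶ T.toOver) (h : s ≫ p = 𝟙 _) : idStep A s ≫ idStep A p = 𝟙 _ := by
  unfold idStep
  refine SmProjVar.hom_ext ?_ ?_
  · rw [Category.assoc, SmProjVar.lift_fst, SmProjVar.lift_fst, Category.id_comp]
  · rw [Category.assoc, SmProjVar.lift_snd, SmProjVar.lift_snd_assoc, Category.assoc, h,
      Category.comp_id, Category.id_comp]

lemma retract_comp {A B D : SmProjVar k} (s : A.toOver ⟶ B.toOver) (p : B.toOver ⟶ A.toOver)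
    (s' : B.toOver ⟶ D.toOver) (p' : D.toOver ⟶ B.toOver) (h : s ≫ p = 𝟙 _)
    (h' : s' ≫ p' = 𝟙 _) : (s ≫ s') ≫ p' ≫ p = 𝟙 _ := by
  rw [Category.assoc, ← Category.assoc s', h', Category.id_comp, h]

/-- `X ^ (m + 1) × X ^ (n + 1)` is a retract of `X ^ (m + n + 2)`. -/
lemma exists_join (X : SmProjVar k) (m : ℕ) : ∀ n : ℕ,
    ∃ (s : ((power X m).prod (power X n)).toOver ⟶ (power X (m + n + 1)).toOver)
      (p : (power X (m + n + 1)).toOver ⟶ ((power X m).prod (power X n)).toOver),
      s ≫ p = 𝟙 _ ∧ ∀ g : SemiAut X, Comm (onPower g (m + n + 1))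
        (prodAut (onPower g m) (onPower g n) ((onPower_base g m).trans (onPower_base g n).symm)) p
  | 0 => ⟨𝟙 _, 𝟙 _, Category.id_comp _, fun _ => comm_id _⟩
  | n + 1 => by
    obtain ⟨s, p, hsp, hc⟩ := exists_join X m n
    refine ⟨stepS X s, stepP X p, stepS_stepP X s p hsp, fun g => ?_⟩
    refine comm_lift _ _ _ _ ?_ (comm_lift _ _ (onPower_base g n) _ ?_ ?_)
    · exact (comm_fst _ _ (onPower_base g (m + n + 1))).comp ((hc g).comp (comm_fst _ _ _))
    · exact (comm_fst _ _ (onPower_base g (m + n + 1))).comp ((hc g).comp (comm_snd _ _ _))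
    · exact comm_snd _ _ (onPower_base g (m + n + 1))

/-- The powers of `X ^ (m + 1)` are retracts of powers of `X`. -/
lemma exists_retract (X : SmProjVar k) (m : ℕ) : ∀ r : ℕ, ∃ (M : ℕ)
    (s : (powS (power X m) r).toOver ⟶ (power X M).toOver)
    (p : (power X M).toOver ⟶ (powS (power X m) r).toOver),
      s ≫ p = 𝟙 _ ∧ ∀ g : SemiAut X, Comm (onPower g M) (powG (onPower g m) r) p
  | 0 => ⟨m, 𝟙 _, 𝟙 _, Category.id_comp _, fun _ => comm_id _⟩
  | r + 1 => by
    obtain ⟨M, s, p, hsp, hc⟩ := exists_retract X m r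
    obtain ⟨s', p', hsp', hc'⟩ := exists_join X m M
    refine ⟨m + M + 1, idStep _ s ≫ s', p' ≫ idStep _ p,
      retract_comp _ _ _ _ (idStep_idStep _ s p hsp) hsp', fun g => (hc' g).comp ?_⟩
    exact comm_lift _ _ (powG_base (onPower g m) r).symm _ (comm_fst _ _ _)
      ((comm_snd _ _ _).comp (hc g))

end Pool.Agent.Helper29.GD
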