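import Mathlib
import Pool.Agent.Helper29.GD.OnPower
import Pool.Agent.Helper11.FrobWeil
import Pool.Agent.Helper11.Murre.S4

/-!
# Descent of the standard conjecture D along groups of semilinear automorphisms
-/

universe u v w

open CategoryTheory AlgebraicGeometry Limits

namespace Pool.Agent.Helper29.GD

open Pool.Agent.Helper10 Pool.Agent.Helper10.SmProjVar Pool.Agent.Helper47.Chow
  Pool.Agent.Helper47.Desc Pool.Agent.Helper11.Obs

variable {k : Type u} [Field k] {K : Type v} [Field K] [CharZero K]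
  {W : WeilCohomology.{u, v, w} k K}

/-- **Descent, for powers.** -/
theorem cl_eq_zero_of_invariant {C : ChowTheory W} (hC : IsEquivariant C) (X : SmProjVar k)
    (Γ : Subgroup (SemiAut X))
    (hfin : ∀ n (a : CH (power X n)), (Set.range fun γ : Γ => (onPower γ.1 n).chow a).Finite)
    (hD : ∀ n j, ∀ a ∈ CHi (power X n) j, (∀ γ ∈ Γ, (onPower γ n).chow a = a) →
      NumZero C (power X n) j a → C.ops.cl _ a = 0)
    (n j : ℕ) {a : CH (power X n)} (ha : a ∈ CHi (power X n) j)
    (h : NumZero C (power X n) j a) : C.ops.cl _ a = 0 := by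
  refine cl_eq_zero_of_powers hC ((powerHom X n).comp Γ.subtype) ha h (hfin n a)
    fun r u hu hinv hnum => ?_
  obtain ⟨M, s, p, hsp, hc⟩ := exists_retract X n r
  have h1 := hD M _ (C.pull p u) (C.pull_mem p _ u hu) (fun γ hγ => ?_) (hnum.pull hu p)
  · have h2 : C.cl _ (C.pull s (C.pull p u)) = 0 := by
      rw [C.cl_pull]
      exact (congrArg (W.pull s) h1).trans (ChowTheory.pull_zero s)
    rwa [← C.pull_comp, hsp, C.pull_id] at h2
  · have h3 := hC.pull (onPower γ M) (powG (onPower γ n) r) p
      ((onPower_base γ M).trans ((powG_base (onPower γ n) r).trans (onPower_base γ n)).symm)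
      (hc γ) u
    refine h3.trans (congrArg (C.ops.pull p) (hinv ⟨γ, hγ⟩))

section Integral

variable {C : ChowTheory W} {Y : SmProjVar k}

/-- The class in the Chow group of an algebraic cycle with integral coefficients. -/
lemma exists_class (C : ChowTheory W) {j : ℕ} (c : Y.Z j) :
    ∃ a ∈ CHi Y j, C.cl Y a = W.cy Y j c := by
  let z : Y.Pt →₀ ℚ := Finsupp.onFinset (Helper11.finite_support_cycle Y c.toCyc).toFinset
    (fun x => (c.toCyc.coeff x : ℚ)) (by
      intro x hx
      rw [Set.Finite.mem_toFinset]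
      intro h
      exact hx (by rw [h, Int.cast_zero]))
  refine ⟨cls Y z, ⟨z, fun x hx => ?_, rfl⟩, C.cl_cls Y j c z fun x => rfl⟩
  refine c.2 x fun h => hx ?_
  change ((c.toCyc.coeff x : ℤ) : ℚ) = 0
  rw [show c.toCyc.coeff x = 0 from h, Int.cast_zero]

open Classical in
/-- The class of a subvariety is the class of a cycle with integral coefficients. -/
lemma cl_ptCls (C : ChowTheory W) {i : ℕ} (x : Y.Pt) (hx : Y.pointDim x + i = Y.dim) :
    C.cl Y (ptCls Y x) = W.cy Y i (Helper11.sZ Y i x hx 1) := by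
  refine C.cl_cls Y i _ (QCycles.point x) fun y => ?_
  rw [Helper11.sZ_coeff]
  change (Finsupp.single x (1 : ℚ) : Y.Pt →₀ ℚ) y = _
  rw [Finsupp.single_apply]
  by_cases h : x = y
  · rw [if_pos h, if_pos h.symm, Int.cast_one]
  · rw [if_neg h, if_neg (Ne.symm h), Int.cast_zero]

/-- A class which pairs to zero with all subvarieties is numerically trivial. -/
lemma numZero_of_ptCls {j : ℕ} {a : CH Y}
    (h : ∀ i, j + i = Y.dim → ∀ x : Y.Pt, Y.pointDim x + i = Y.dim →
      W.tr Y (C.cl Y a * C.cl Y (ptCls Y x)) = 0) : NumZero C Y j a := by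
  intro i hi b hb
  obtain ⟨z, hz, rfl⟩ := hb
  let z' : Y.Pt →₀ ℚ := z
  change trL W Y (C.cl Y a * C.cl Y (ChowTheory.clsL Y z')) = 0
  rw [ChowTheory.cls_eq_sum, Finsupp.sum, map_sum, Finset.mul_sum, map_sum]
  refine Finset.sum_eq_zero fun x hx => ?_
  rw [cl_smul, mul_smul_comm, map_smul]
  have h1 : trL W Y (C.cl Y a * C.cl Y (ptCls Y x)) = 0 :=
    h i hi x (hz x (Finsupp.mem_support_iff.1 hx))
  rw [h1, smul_zero]

/-- The standard conjecture D in terms of Chow groups. -/
lemma standardD_of_numZero (C : ChowTheory W)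
    (h : ∀ j, ∀ a ∈ CHi Y j, NumZero C Y j a → C.cl Y a = 0) : W.StandardD Y := by
  intro j a b hab
  obtain ⟨a', ha', ha⟩ := exists_class C a
  obtain ⟨b', hb', hb⟩ := exists_class C b
  have h1 : C.cl Y (a' - b') = 0 := by
    refine h j _ (Submodule.sub_mem (CHiL Y j) ha' hb') (numZero_of_ptCls fun i hi x hx => ?_)
    rw [map_sub, ha, hb, cl_ptCls C x hx, sub_mul]
    change trL W Y _ = 0
    rw [map_sub]
    change W.tr Y _ - W.tr Y _ = 0
    rw [W.cycleClasses.tr_cy_mul Y j i a _ hi, W.cycleClasses.tr_cy_mul Y j i b _ hi,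
      hab i hi, sub_self]
  rw [map_sub, ha, hb, sub_eq_zero] at h1
  exact h1

end Integral

section Span

variable {C : ChowTheory W}

/-- Numerically trivial classes on `Y` are orthogonal to the images of `H(T)` under
correspondences, if D holds for `T`. -/
lemma tr_algebraicMap {T Y : SmProjVar k}
    (hT : ∀ j, ∀ a ∈ CHi T j, NumZero C T j a → C.cl T a = 0) {u : W.H T → W.H Y}
    (hu : W.IsAlgebraicMap T Y u) (x : W.H T) {j : ℕ} {a : CH Y} (ha : a ∈ CHi Y j)
    (h : NumZero C Y j a) : W.tr Y (u x * C.cl Y a) = 0 := by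
  obtain ⟨c, hc, hu⟩ := hu
  have h1 : W.tr Y (u x * C.cl Y a) =
      W.tr (T.prod Y) (W.pull (fst T Y) x * c * W.pull (snd T Y) (C.cl Y a)) := hu x (C.cl Y a)
  rw [h1]
  clear h1 hu
  change trL W (T.prod Y) _ = 0
  induction hc using Submodule.span_induction with
  | zero => rw [mul_zero, zero_mul, map_zero]
  | add c c' _ _ hc hc' => rw [mul_add, add_mul, map_add, hc, hc', add_zero]
  | smul q c _ hc => rw [mul_smul_comm, smul_mul_assoc, map_smul, hc, smul_zero]
  | mem c hc =>
    obtain ⟨i, e, rfl⟩ := hc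
    obtain ⟨e', he', hee⟩ := exists_class C e
    have hm : C.mul _ e' (C.pull (snd T Y) a) ∈ CHi (T.prod Y) (i + j) :=
      C.mul_mem _ _ _ _ _ he' (C.pull_mem _ _ _ ha)
    have hn : NumZero C (T.prod Y) (i + j) (C.mul _ e' (C.pull (snd T Y) a)) :=
      (h.pull ha (snd T Y)).mul' he'
    have h2 : C.cl T (C.push (fst T Y) (C.mul _ e' (C.pull (snd T Y) a))) = 0 := by
      by_cases hd : i + j + T.dim < (T.prod Y).dim
      · rw [Helper11.Murre.push_eq_zero C (fst T Y) (i + j) hd _ hm, map_zero]
      · refine hT (i + j + T.dim - (T.prod Y).dim) _ ?_ (hn.push (fst T Y) (by omega))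
        exact C.push_mem (fst T Y) (i + j) _ (by omega) _ hm
    have h3 := C.cl_push (fst T Y) (C.mul _ e' (C.pull (snd T Y) a)) x
    rw [h2, zero_mul, ChowTheory.tr_zero, C.cl_mul, C.cl_pull, hee] at h3
    change W.tr _ _ = 0
    rw [h3]
    have h4 : W.pull (fst T Y) x * W.cy (T.prod Y) i e * W.pull (snd T Y) (C.cl Y a) =
        W.cy (T.prod Y) i e * W.pull (snd T Y) (C.cl Y a) * W.pull (fst T Y) x := by
      have h5 : W.cy (T.prod Y) i e * W.pull (snd T Y) (C.cl Y a) ∈
          W.gr (T.prod Y) (2 * (i + j)) := by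
        have := C.cl_mem _ _ _ hm
        rwa [C.cl_mul, C.cl_pull, hee] at this
      rw [_root_.mul_assoc, even_comm W _ _ _ (W.pull (fst T Y) x) h5]
    rw [h4]

/-- **Descent of the standard conjecture D.** Let `Γ` be a group of semilinear automorphisms of
`X`, such that the classes in `CH(X ^ n)` have finite orbits for all `n`. If all
`Γ`-invariant numerically trivial classes on the powers of `X` are homologically trivial, then
D holds for all varieties whose cohomology is spanned by the images of the cohomology of the powers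
of `X` under correspondences. -/
theorem standardD_of_invariant (hC : IsEquivariant C) (X : SmProjVar k)
    (Γ : Subgroup (SemiAut X))
    (hfin : ∀ n (a : CH (power X n)), (Set.range fun γ : Γ => (onPower γ.1 n).chow a).Finite)
    (hD : ∀ n j, ∀ a ∈ CHi (power X n) j, (∀ γ ∈ Γ, (onPower γ n).chow a = a) →
      NumZero C (power X n) j a → C.ops.cl _ a = 0)
    (Y : SmProjVar k) (hY : imageOfPowers W.toCohomologyData X Y = ⊤) : W.StandardD Y := by
  refine standardD_of_numZero C fun j a ha h => C.cl_eq_zero_of_tr a fun y => ?_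
  rw [even_comm W Y j _ y (C.cl_mem Y j a ha)]
  have hy : y ∈ imageOfPowers W.toCohomologyData X Y := by rw [hY]; trivial
  change trL W Y _ = 0
  unfold imageOfPowers at hy
  induction hy using Submodule.span_induction with
  | zero => rw [zero_mul, map_zero]
  | add x y _ _ hx hy => rw [add_mul, map_add, hx, hy, add_zero]
  | smul q x _ hx => rw [smul_mul_assoc, map_smul, hx, smul_zero]
  | mem y hy =>
    obtain ⟨n, u, x, hu, rfl⟩ := hy
    exact tr_algebraicMap (fun j a ha h => cl_eq_zero_of_invariant hC X Γ hfin hD n j ha h) hu x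
      ha h

end Span

end Pool.Agent.Helper29.GD
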